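import Pool.Agent.Y160.T8.Stm
import Pool.Agent.Y228.FT.TwC
import Pool.Agent.Y228.FT.InA
import Pool.Agent.Y228.FT.InB
import Pool.Agent.Y46.FT.Pres
import Pool.Agent.Y494.FT.Kum
import Pool.Agent.Y317.FT.TS

/-! # T8-BASE: functions on `x ^ q + g(t) = 0` -/

set_option autoImplicit false
set_option linter.all false

open Polynomial IsDedekindDomain

namespace Pool.Agent.Y468.T8

open Pool.Agent.Y160.FT (Pres VV Triv FF EE StKum StTS StPres0)
open Pool.Agent.Y228.FT (PropR IndR)
open Pool.Agent.Y160.SL (Redei)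
open Pool.Agent.Y160.T8 (PropV IndV St_base)

section fac

variable {k : Type} [Field k]

theorem ms_map {α β : Type} (G : α → β) (T : Multiset β) (hT : ∀ b ∈ T, ∃ a, G a = b) :
    ∃ S : Multiset α, S.map G = T := by
  induction T using Multiset.induction_on with
  | empty => exact ⟨0, rfl⟩
  | cons b T ih =>
    obtain ⟨a, ha⟩ := hT b (Multiset.mem_cons_self b T)
    obtain ⟨S, hS⟩ := ih fun c hc => hT c (Multiset.mem_cons_of_mem hc)
    exact ⟨a ::ₘ S, by rw [Multiset.map_cons, ha, hS]⟩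

/-- A monic divisor of a power of `∏ G j` is a product of the `G j`. -/
theorem fac_of {n : ℕ} {G : Fin n → k[X]} (hG : ∀ j, Irreducible (G j) ∧ (G j).Monic) {g A : k[X]}
    (hgG : g = ∏ j, G j) (hA : A.Monic) (hV : VV g A) :
    ∃ S : Multiset (Fin n), (S.map G).prod = A := by
  classical
  obtain ⟨M, hM⟩ := hV
  obtain ⟨S, hS⟩ := ms_map G (UniqueFactorizationMonoid.normalizedFactors A) fun b hb => by
    have h1 := UniqueFactorizationMonoid.irreducible_of_normalized_factor b hb
    have h2 := UniqueFactorizationMonoid.dvd_of_mem_normalizedFactors hb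
    have h3 := UniqueFactorizationMonoid.normalize_normalized_factor b hb
    have hbm : b.Monic := by
      have h4 := Polynomial.monic_normalize h1.ne_zero
      rwa [h3] at h4
    have h5 : b ∣ g := h1.prime.dvd_of_dvd_pow (h2.trans hM)
    rw [hgG, h1.prime.dvd_finset_prod_iff] at h5
    obtain ⟨j, -, hj⟩ := h5
    exact ⟨j, (eq_of_monic_of_associated hbm (hG j).2 (h1.associated_of_dvd (hG j).1 hj)).symm⟩
  refine ⟨S, ?_⟩
  rw [hS]
  have h6 := UniqueFactorizationMonoid.prod_normalizedFactors hA.ne_zero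
  refine eq_of_monic_of_associated ?_ hA h6
  rw [← hS]
  exact monic_multiset_prod_of_monic _ _ fun j _ => (hG j).2

end fac

section

variable {k : Type} [Field k] {r : ℕ} {G : Fin (r + 1) → k[X]}

theorem pow_cmp {P u v : k[X]} (hP : Prime P) (hu : ¬ P ∣ u) (hv : ¬ P ∣ v) {a b : ℕ}
    (h : P ^ a * u = P ^ b * v) : a = b := by
  rcases lt_trichotomy a b with hab | hab | hab
  · exfalso
    obtain ⟨d, rfl⟩ := Nat.exists_eq_add_of_lt hab
    have h1 : u = P ^ (d + 1) * v := by
      apply mul_left_cancel₀ (pow_ne_zero a hP.ne_zero)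
      rw [h]
      ring
    exact hu (by rw [h1, pow_succ', mul_assoc]; exact dvd_mul_right _ _)
  · exact hab
  · exfalso
    obtain ⟨d, rfl⟩ := Nat.exists_eq_add_of_lt hab
    have h1 : v = P ^ (d + 1) * u := by
      apply mul_left_cancel₀ (pow_ne_zero b hP.ne_zero)
      rw [← h]
      ring
    exact hv (by rw [h1, pow_succ', mul_assoc]; exact dvd_mul_right _ _)

theorem pow_cmp' {P u v : k[X]} (hP : Prime P) (hu : ¬ P ∣ u) (hv : ¬ P ∣ v) {a b : ℕ}
    (h : P ^ (b + 1) ∣ P ^ a * u - P ^ b * v) : a = b ∧ P ∣ u - v := by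
  have hab : a = b := by
    rcases lt_trichotomy a b with hab | hab | hab
    · exfalso
      have h1 : P ^ (a + 1) ∣ P ^ a * u := by
        have h2 : P ^ (a + 1) ∣ P ^ b * v := (pow_dvd_pow P hab).mul_right _
        have h3 : P ^ (a + 1) ∣ P ^ a * u - P ^ b * v := (pow_dvd_pow P (by omega)).trans h
        have h4 := dvd_add h3 h2
        rwa [sub_add_cancel] at h4
      rw [pow_succ] at h1
      exact hu ((mul_dvd_mul_iff_left (pow_ne_zero a hP.ne_zero)).1 h1)
    · exact hab
    · exfalso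
      have h1 : P ^ (b + 1) ∣ P ^ b * v := by
        have h2 : P ^ (b + 1) ∣ P ^ a * u := (pow_dvd_pow P hab).mul_right _
        have h4 := dvd_sub h2 h
        rwa [sub_sub_cancel] at h4
      rw [pow_succ] at h1
      exact hv ((mul_dvd_mul_iff_left (pow_ne_zero b hP.ne_zero)).1 h1)
  refine ⟨hab, ?_⟩
  subst hab
  rw [← mul_sub, pow_succ] at h
  exact (mul_dvd_mul_iff_left (pow_ne_zero a hP.ne_zero)).1 h

theorem not_dvd (hG : ∀ j, (G j).Monic ∧ Irreducible (G j) ∧ (G j).Separable)
    (hGi : Function.Injective G) {i j : Fin (r + 1)} (h : j ≠ i) : ¬ G i ∣ G j := by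
  intro hd
  have h1 := (hG i).2.1.associated_of_dvd (hG j).2.1 hd
  exact h (hGi (eq_of_monic_of_associated (hG i).1 (hG j).1 h1)).symm

theorem not_dvd_prod (hG : ∀ j, (G j).Monic ∧ Irreducible (G j) ∧ (G j).Separable)
    (hGi : Function.Injective G) (i : Fin (r + 1)) (e : Fin (r + 1) → ℕ) :
    ¬ G i ∣ ∏ j ∈ Finset.univ.erase i, G j ^ e j := by
  intro hd
  rw [(hG i).2.1.prime.dvd_finset_prod_iff] at hd
  obtain ⟨j, hj, hd⟩ := hd
  exact not_dvd hG hGi (Finset.ne_of_mem_erase hj) ((hG i).2.1.prime.dvd_of_dvd_pow hd)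

theorem prod_split (i : Fin (r + 1)) (f : Fin (r + 1) → k[X]) :
    ∏ j, f j = f i * ∏ j ∈ Finset.univ.erase i, f j :=
  (Finset.mul_prod_erase Finset.univ f (Finset.mem_univ i)).symm

theorem prod_count (S : Multiset (Fin (r + 1))) : (S.map G).prod = ∏ j, G j ^ S.count j := by
  classical
  induction S using Multiset.induction_on with
  | empty => simp
  | cons a S ih =>
    rw [Multiset.map_cons, Multiset.prod_cons, ih, mul_comm]
    simp only [Multiset.count_cons, pow_add, Finset.prod_mul_distrib]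
    congr 1
    rw [Finset.prod_eq_single a]
    · rw [if_pos rfl, pow_one]
    · intro b _ hb
      rw [if_neg hb, pow_zero]
    · intro h
      exact absurd (Finset.mem_univ _) h

theorem fac (hG : ∀ j, (G j).Monic ∧ Irreducible (G j) ∧ (G j).Separable) {A : k[X]}
    (hV : VV (∏ j, G j) A) : ∃ (c : k) (e : Fin (r + 1) → ℕ), c ≠ 0 ∧ A = C c * ∏ j, G j ^ e j := by
  classical
  have hgm : (∏ j, G j).Monic := monic_prod_of_monic _ _ fun j _ => (hG j).1
  have hA0 : A ≠ 0 := by
    rintro rfl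
    obtain ⟨N, hN⟩ := hV
    exact pow_ne_zero N hgm.ne_zero (zero_dvd_iff.1 hN)
  have hlc : A.leadingCoeff ≠ 0 := leadingCoeff_ne_zero.2 hA0
  have hAm : (C (A.leadingCoeff)⁻¹ * A).Monic := by
    rw [mul_comm]
    exact monic_mul_leadingCoeff_inv hA0
  have hA : A = C A.leadingCoeff * (C (A.leadingCoeff)⁻¹ * A) := by
    rw [← mul_assoc, ← C_mul, mul_inv_cancel₀ hlc, C_1, one_mul]
  have hV' : VV (∏ j, G j) (C (A.leadingCoeff)⁻¹ * A) := by
    obtain ⟨N, hN⟩ := hV
    refine ⟨N, dvd_trans ?_ hN⟩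
    exact Dvd.intro_left (C A.leadingCoeff) hA.symm
  obtain ⟨S, hS⟩ := fac_of (fun j => ⟨(hG j).2.1, (hG j).1⟩) rfl hAm hV'
  refine ⟨A.leadingCoeff, fun j => S.count j, hlc, ?_⟩
  conv_lhs => rw [hA, ← hS, prod_count]

end

theorem st_base : St_base := by
  classical
  intro p q s r k _ ζ G hp hq hζ hG hGi hcop hred
  have hgm : (∏ j, G j).Monic := monic_prod_of_monic _ _ fun j _ => (hG j).1
  have hsep : (∏ j, G j).Separable := separable_prod (fun i j hij =>
    ((hG i).2.1.coprime_iff_not_dvd).2 (not_dvd hG hGi (Ne.symm hij))) fun j => (hG j).2.2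
  have hred' : ∀ (c : k) (A : k[X]), c ≠ 0 → VV (∏ j, G j) A →
      (∀ P : k[X], P.Monic → Irreducible P → P ∣ ∏ j, G j →
        ∃ (e : ℕ) (w : k[X]), ¬ P ∣ w ∧ P ^ (e + 1) ∣ C c * A - (∏ j, G j) ^ e * w ^ p) →
      Triv p (∏ j, G j) A := by
    intro c A hc hV hloc
    obtain ⟨c', e, hc', rfl⟩ := fac hG hV
    have h1 := hred (c * c') e (mul_ne_zero hc hc') (by
      intro i
      obtain ⟨ε, w, hw, hd⟩ := hloc (G i) (hG i).1 (hG i).2.1
        (Finset.dvd_prod_of_mem _ (Finset.mem_univ i))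
      have hP := (hG i).2.1.prime
      have e1 : C c * (C c' * ∏ j, G j ^ e j) =
          G i ^ e i * (C (c * c') * ∏ j ∈ Finset.univ.erase i, G j ^ e j) := by
        rw [prod_split i (fun j => G j ^ e j), C_mul]
        ring
      have e2 : (∏ j, G j) ^ ε * w ^ p =
          G i ^ ε * ((∏ j ∈ Finset.univ.erase i, G j) ^ ε * w ^ p) := by
        rw [prod_split i G, mul_pow]
        ring
      rw [e1, e2] at hd
      have hu : ¬ G i ∣ C (c * c') * ∏ j ∈ Finset.univ.erase i, G j ^ e j := by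
        intro h
        rcases hP.dvd_or_dvd h with h | h
        · exact hP.not_isUnit (isUnit_of_dvd_unit h
            (isUnit_C.2 (IsUnit.mk0 _ (mul_ne_zero hc hc'))))
        · exact not_dvd_prod hG hGi i e h
      have hv : ¬ G i ∣ (∏ j ∈ Finset.univ.erase i, G j) ^ ε * w ^ p := by
        intro h
        rcases hP.dvd_or_dvd h with h | h
        · have h2 := hP.dvd_of_dvd_pow h
          have h3 := not_dvd_prod hG hGi i (fun _ => 1)
          simp only [pow_one] at h3
          exact h3 h2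
        · exact hw (hP.dvd_of_dvd_pow h)
      obtain ⟨h4, h5⟩ := pow_cmp' hP hu hv hd
      rw [← h4] at h5
      exact ⟨w, h5⟩)
    refine ⟨c', e 0 % p, ∏ j, G j ^ (e j / p), hc', ?_⟩
    rw [mul_assoc, ← Finset.prod_pow, ← Finset.prod_pow, ← Finset.prod_mul_distrib]
    congr 1
    refine Finset.prod_congr rfl fun j _ => ?_
    rw [← pow_mul, ← pow_add]
    congr 1
    have h2 : e j % p = e 0 % p := h1 j 0
    rw [← h2, mul_comm]
    exact (Nat.mod_add_div (e j) p).symm
  obtain ⟨R, i1, i2, i3, t, x, hPres, hPropR⟩ := Pool.Agent.Y228.FT.base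
    Pool.Agent.Y494.FT.stKum Pool.Agent.Y317.FT.stTS Pool.Agent.Y46.FT.stPres0 hp hq hζ hsep hcop
    hred'
  obtain ⟨R₁, j1, j2, j3, t₁, x₁, hPres₁, hInd₁⟩ := Pool.Agent.Y228.FT.ind_base
    Pool.Agent.Y494.FT.stKum Pool.Agent.Y46.FT.stPres0 hp hq hζ hsep hcop
  have hInd : IndR p (∏ j, G j) t := hInd₁.transfer hPres₁ hPres
  refine ⟨R, i1, i2, i3, t, x, hPres, ?_, ?_⟩
  · intro L _ _ _ z hz hP
    letI : Algebra k L := ((algebraMap R L).comp (algebraMap k R)).toAlgebra
    have hcL : ∀ c : k, algebraMap k L c = algebraMap R L (algebraMap k R c) := fun c => rfl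
    obtain ⟨c, A, w, hc, hV, hw, e1⟩ := hPropR L hcL z hz hP
    obtain ⟨c', e, hc', rfl⟩ := fac hG hV
    refine ⟨c * c', e, w, mul_ne_zero hc hc', hw, ?_⟩
    rw [e1, hcL]
    simp only [map_mul, aeval_C, map_prod, map_pow]
    ring
  · intro c e w hc hw i j
    have hVV : VV (∏ j, G j) (∏ j, G j ^ e j) := by
      refine ⟨∑ j, e j, ?_⟩
      rw [← Finset.prod_pow_eq_pow_sum]
      exact Finset.prod_dvd_prod_of_dvd _ _ fun j _ =>
        pow_dvd_pow_of_dvd (Finset.dvd_prod_of_mem _ (Finset.mem_univ j)) _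
    obtain ⟨m, B, hB⟩ := hInd c (∏ j, G j ^ e j) w hc hVV (by
      rw [← hw, map_prod]
      simp only [map_pow])
    have hB0 : B ≠ 0 := by
      rintro rfl
      rw [zero_pow hp.ne_zero, mul_zero] at hB
      rcases mul_eq_zero.1 hB with h | h
      · exact hc (C_eq_zero.1 h)
      · rw [Finset.prod_eq_zero_iff] at h
        obtain ⟨l, -, hl⟩ := h
        exact pow_ne_zero _ (hG l).2.1.ne_zero hl
    have key : ∀ i, e i ≡ m [MOD p] := by
      intro i
      have hP := (hG i).2.1.prime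
      obtain ⟨B', hBB, hB'⟩ := (FiniteMultiplicity.of_not_isUnit hP.not_unit
        hB0).exists_eq_pow_mul_and_not_dvd
      generalize multiplicity (G i) B = b at hBB
      have hu : ¬ G i ∣ C c * ∏ j ∈ Finset.univ.erase i, G j ^ e j := by
        intro h
        rcases hP.dvd_or_dvd h with h | h
        · exact hP.not_isUnit (isUnit_of_dvd_unit h (isUnit_C.2 (IsUnit.mk0 _ hc)))
        · exact not_dvd_prod hG hGi i e h
      have hv : ¬ G i ∣ (-1) ^ m * (∏ j ∈ Finset.univ.erase i, G j) ^ m * B' ^ p := by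
        intro h
        rcases hP.dvd_or_dvd h with h | h
        · rcases hP.dvd_or_dvd h with h | h
          · exact hP.not_isUnit (isUnit_of_dvd_unit h ((isUnit_one.neg).pow m))
          · have h2 := hP.dvd_of_dvd_pow h
            have h3 := not_dvd_prod hG hGi i (fun _ => 1)
            simp only [pow_one] at h3
            exact h3 h2
        · exact hB' (hP.dvd_of_dvd_pow h)
      have h4 : G i ^ e i * (C c * ∏ j ∈ Finset.univ.erase i, G j ^ e j) =
          G i ^ (m + p * b) * ((-1) ^ m * (∏ j ∈ Finset.univ.erase i, G j) ^ m * B' ^ p) := by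
        have h5 : G i ^ e i * (C c * ∏ j ∈ Finset.univ.erase i, G j ^ e j) =
            C c * ∏ j, G j ^ e j := by
          rw [prod_split i (fun j => G j ^ e j)]
          ring
        rw [h5, hB, hBB, prod_split i G, neg_pow, mul_pow, mul_pow, ← pow_mul, pow_add,
          mul_comm p b]
        ring
      have h6 := pow_cmp hP hu hv h4
      rw [h6]
      exact (Nat.modEq_iff_dvd' (Nat.le_add_right _ _)).2 (by
        rw [Nat.add_sub_cancel_left]
        exact Dvd.intro _ rfl) |>.symm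
    exact (key i).trans (key j).symm

end Pool.Agent.Y468.T8
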